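import Pool.Agent.H756R3.CP.LP2

/-! Task LP of project COVPROD. -/

set_option autoImplicit false

open MeasureTheory Metric Real

namespace Pool.Agent.H756R3.CP

open Pool.Agent.H624R3.CP

theorem tsum_sub_le {ι : Type} (p : ι → Prop) (a : {z : ι // p z} → ℝ) (b : ι → ℝ) (c O : ℝ)
    (hc : 0 ≤ c) (hO : 0 ≤ O) (hab : ∀ z, a z ≤ c * b z.1)
    (hb : ∀ T : Finset ι, (∀ z ∈ T, p z) → ∑ z ∈ T, b z ≤ O) : ∑' z, a z ≤ c * O := by
  refine tsum_le_of_sum_le' (mul_nonneg hc hO) fun s => ?_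
  calc ∑ z ∈ s, a z ≤ ∑ z ∈ s, c * b z.1 := Finset.sum_le_sum fun z _ => hab z
    _ = c * ∑ z ∈ s.map (Function.Embedding.subtype p), b z := by
        rw [Finset.sum_map, Finset.mul_sum]
        rfl
    _ ≤ c * O := by
        refine mul_le_mul_of_nonneg_left (hb _ ?_) hc
        intro z hz
        rw [Finset.mem_map] at hz
        obtain ⟨y, -, rfl⟩ := hz
        exact y.2

theorem taskLP : TaskSUB → TaskIVAL → TaskLP := by
  intro hS hI d i k M S x0 r ρ O hM hi hi1 hk hρ hr hx hO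
  have hρ0 : ρ ≠ 0 := hρ.ne'
  have hO0 : 0 ≤ O := by
    have := hO ∅ (by simp)
    simpa using this
  have hcs : HasCompactSupport (fb (V := S) ρ k) := by
    refine HasCompactSupport.intro (isCompact_closedBall (0 : S) ρ) fun y hy => ?_
    rw [mem_closedBall_zero_iff, not_le] at hy
    exact fb_zero hρ (by omega) hy.le
  have hmain := hS d M S (fb (V := S) ρ k) x0 r hM (fb_contDiff ρ hk) hcs hr hx
  have hgle : ∀ y : S, ‖gradient (fb (V := S) ρ k) y‖ ≤ 2 * k / ρ := by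
    intro y
    rw [grad_norm ρ hk]
    by_cases hy : ρ < ‖y‖
    · have := fb_zero (V := S) hρ (k := k - 1) (by omega) hy.le
      unfold fb at this
      rw [this]
      have : (0 : ℝ) ≤ 2 * k / ρ := by positivity
      simpa using this
    · have h1 : (max 0 (1 - ‖y‖ ^ 2 / ρ ^ 2)) ^ (k - 1) ≤ 1 :=
        pow_le_one₀ (le_max_left _ _) (mx_le ρ y)
      have h2 : 2 * ‖y‖ / ρ ^ 2 ≤ 2 / ρ := by
        rw [div_le_div_iff₀ (by positivity) hρ]
        nlinarith [not_lt.1 hy, norm_nonneg y]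
      calc (k : ℝ) * (max 0 (1 - ‖y‖ ^ 2 / ρ ^ 2)) ^ (k - 1) * (2 * ‖y‖ / ρ ^ 2)
          ≤ (k : ℝ) * 1 * (2 / ρ) := by
            refine mul_le_mul (mul_le_mul_of_nonneg_left h1 (Nat.cast_nonneg k)) h2
              (by positivity) (by positivity)
        _ = 2 * k / ρ := by ring
  have hgz : ∀ y : S, ρ < ‖y‖ → ‖gradient (fb (V := S) ρ k) y‖ = 0 := by
    intro y hy
    rw [grad_norm ρ hk]
    have := fb_zero (V := S) hρ (k := k - 1) (by omega) hy.le
    unfold fb at this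
    rw [this]
    ring
  have hA : ∑' z : {z : Fin d → ℤ // z ≠ 0 ∧ lp M z ∈ S},
      ∫ y : S, |fb (V := S) ρ k y| * |fb (V := S) ρ k (y + ⟨lp M z, z.2.2⟩)| ≤ 1 * O := by
    refine tsum_sub_le (fun z : Fin d → ℤ => z ≠ 0 ∧ lp M z ∈ S) _
      (fun z => vb i * (max 0 (ρ ^ 2 - ‖lp M z‖ ^ 2 / 4)) ^ ((i : ℝ) / 2)) 1 O zero_le_one hO0
      ?_ ?_
    · intro z
      have := overlap (V := S) hi hi1 hρ zero_le_one ⟨lp M z, z.2.2⟩
        (fun y => |fb (V := S) ρ k y| * |fb (V := S) ρ k (y + ⟨lp M z, z.2.2⟩)|)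
        (fun y => by positivity) ?_ ?_
      · exact this
      · intro y
        rw [abs_of_nonneg (fb_nonneg _ _ _), abs_of_nonneg (fb_nonneg _ _ _)]
        exact mul_le_one₀ (fb_le_one _ _ _) (fb_nonneg _ _ _) (fb_le_one _ _ _)
      · intro y hy
        rcases hy with hy | hy
        · change |fb (V := S) ρ k y| * _ = 0
          rw [fb_zero hρ (by omega) hy.le]
          simp
        · change _ * |fb (V := S) ρ k (y + ⟨lp M z, z.2.2⟩)| = 0
          rw [fb_zero hρ (by omega) hy.le]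
          simp
    · intro T hT
      rw [← Finset.mul_sum]
      exact hO T hT
  have hB : ∑' z : {z : Fin d → ℤ // z ≠ 0 ∧ lp M z ∈ S},
      ∫ y : S, ‖gradient (fb (V := S) ρ k) y‖ *
        ‖gradient (fb (V := S) ρ k) (y + ⟨lp M z, z.2.2⟩)‖ ≤ (4 * k ^ 2 / ρ ^ 2) * O := by
    refine tsum_sub_le (fun z : Fin d → ℤ => z ≠ 0 ∧ lp M z ∈ S) _
      (fun z => vb i * (max 0 (ρ ^ 2 - ‖lp M z‖ ^ 2 / 4)) ^ ((i : ℝ) / 2)) (4 * k ^ 2 / ρ ^ 2) O
      (by positivity) hO0 ?_ ?_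
    · intro z
      have := overlap (V := S) hi hi1 hρ (c := 4 * k ^ 2 / ρ ^ 2) (by positivity)
        ⟨lp M z, z.2.2⟩
        (fun y => ‖gradient (fb (V := S) ρ k) y‖ *
          ‖gradient (fb (V := S) ρ k) (y + ⟨lp M z, z.2.2⟩)‖)
        (fun y => by positivity) ?_ ?_
      · exact this
      · intro y
        calc ‖gradient (fb (V := S) ρ k) y‖ *
              ‖gradient (fb (V := S) ρ k) (y + ⟨lp M z, z.2.2⟩)‖
            ≤ (2 * k / ρ) * (2 * k / ρ) :=
              mul_le_mul (hgle _) (hgle _) (norm_nonneg _) (by positivity)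
          _ = 4 * k ^ 2 / ρ ^ 2 := by
              field_simp
              ring
      · intro y hy
        rcases hy with hy | hy
        · change ‖gradient (fb (V := S) ρ k) y‖ * _ = 0
          rw [hgz y hy, zero_mul]
        · change _ * ‖gradient (fb (V := S) ρ k) (y + ⟨lp M z, z.2.2⟩)‖ = 0
          rw [hgz _ hy, mul_zero]
    · intro T hT
      rw [← Finset.mul_sum]
      exact hO T hT
  rw [fb_sq_int hi hρ (by omega), grad_sq_int hI hi hi1 hρ hk] at hmain
  rw [one_mul] at hA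
  have h1 : 4 * π ^ 2 * r ^ 2 * (II i ρ (2 * k) - O) ≤ 4 * π ^ 2 * r ^ 2 * (II i ρ (2 * k) -
      ∑' z : {z : Fin d → ℤ // z ≠ 0 ∧ lp M z ∈ S},
      ∫ y : S, |fb (V := S) ρ k y| * |fb (V := S) ρ k (y + ⟨lp M z, z.2.2⟩)|) :=
    mul_le_mul_of_nonneg_left (by linarith) (by positivity)
  exact h1.trans (hmain.trans (by linarith))

end Pool.Agent.H756R3.CP
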