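import Pool.Agent.H624R3.CP.Stmts

/-! Task LP of project COVPROD, part 1: the bump function. -/

set_option autoImplicit false

open MeasureTheory Metric Real

namespace Pool.Agent.H756R3.CP

theorem g_deriv {k : ℕ} (hk : 2 ≤ k) (t : ℝ) :
    HasDerivAt (fun t : ℝ => (max 0 t) ^ k) (k * (max 0 t) ^ (k - 1)) t := by
  rcases lt_trichotomy t 0 with h | h | h
  · have h1 : (fun t : ℝ => (max 0 t) ^ k) =ᶠ[nhds t] fun _ => 0 := by
      filter_upwards [gt_mem_nhds h] with s hs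
      rw [max_eq_left hs.le, zero_pow (by omega)]
    rw [max_eq_left h.le, zero_pow (by omega), mul_zero]
    exact (hasDerivAt_const t (0 : ℝ)).congr_of_eventuallyEq h1
  · subst h
    have h1 := hasDerivAt_pow k (0 : ℝ)
    rw [zero_pow (by omega), mul_zero] at h1
    rw [max_self, zero_pow (by omega), mul_zero]
    rw [hasDerivAt_iff_isLittleO] at h1 ⊢
    refine Asymptotics.IsBigO.trans_isLittleO ?_ h1
    refine Asymptotics.IsBigO.of_bound 1 (Filter.Eventually.of_forall fun s => ?_)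
    simp only [max_self, sub_zero, smul_zero, one_mul]
    rw [zero_pow (by omega), sub_zero, sub_zero, norm_pow, norm_pow]
    refine pow_le_pow_left₀ (norm_nonneg _) ?_ k
    rw [Real.norm_eq_abs, Real.norm_eq_abs, abs_of_nonneg (le_max_left 0 s)]
    exact max_le (abs_nonneg s) (le_abs_self s)
  · have h1 : (fun t : ℝ => (max 0 t) ^ k) =ᶠ[nhds t] fun s => s ^ k := by
      filter_upwards [lt_mem_nhds h] with s hs
      rw [max_eq_right hs.le]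
    rw [max_eq_right h.le]
    exact (hasDerivAt_pow k t).congr_of_eventuallyEq h1

theorem g_contDiff {k : ℕ} (hk : 2 ≤ k) : ContDiff ℝ 1 (fun t : ℝ => (max 0 t) ^ k) := by
  rw [contDiff_one_iff_deriv]
  refine ⟨fun t => (g_deriv hk t).differentiableAt, ?_⟩
  have : deriv (fun t : ℝ => (max 0 t) ^ k) = fun t : ℝ => (k : ℝ) * (max 0 t) ^ (k - 1) := by
    funext t
    exact (g_deriv hk t).deriv
  rw [this]
  fun_prop

section
variable {V : Type} [NormedAddCommGroup V] [InnerProductSpace ℝ V]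

/-- the bump function -/
noncomputable def fb (ρ : ℝ) (k : ℕ) (y : V) : ℝ := (max 0 (1 - ‖y‖ ^ 2 / ρ ^ 2)) ^ k

theorem fb_contDiff (ρ : ℝ) {k : ℕ} (hk : 2 ≤ k) : ContDiff ℝ 1 (fb (V := V) ρ k) := by
  have h1 : ContDiff ℝ 1 (fun y : V => 1 - ‖y‖ ^ 2 / ρ ^ 2) :=
    contDiff_const.sub ((contDiff_norm_sq ℝ).div_const _)
  exact (g_contDiff hk).comp h1

theorem fb_zero {ρ : ℝ} (hρ : 0 < ρ) {k : ℕ} (hk : 1 ≤ k) {y : V} (hy : ρ ≤ ‖y‖) :
    fb ρ k y = 0 := by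
  unfold fb
  have h1 : 1 ≤ ‖y‖ ^ 2 / ρ ^ 2 := by
    rw [one_le_div (by positivity)]
    exact pow_le_pow_left₀ hρ.le hy 2
  rw [max_eq_left (by linarith), zero_pow (by omega)]

theorem fb_nonneg (ρ : ℝ) (k : ℕ) (y : V) : 0 ≤ fb ρ k y := pow_nonneg (le_max_left _ _) _

theorem mx_le (ρ : ℝ) (y : V) : max 0 (1 - ‖y‖ ^ 2 / ρ ^ 2) ≤ 1 :=
  max_le zero_le_one (by linarith [div_nonneg (sq_nonneg ‖y‖) (sq_nonneg ρ)])

theorem fb_le_one (ρ : ℝ) (k : ℕ) (y : V) : fb ρ k y ≤ 1 :=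
  pow_le_one₀ (le_max_left _ _) (mx_le ρ y)

theorem grad_norm [CompleteSpace V] (ρ : ℝ) {k : ℕ} (hk : 2 ≤ k) (y : V) :
    ‖gradient (fb (V := V) ρ k) y‖ =
      k * (max 0 (1 - ‖y‖ ^ 2 / ρ ^ 2)) ^ (k - 1) * (2 * ‖y‖ / ρ ^ 2) := by
  have h1 : HasFDerivAt (fun y : V => ‖y‖ ^ 2) (2 • (innerSL ℝ y)) y :=
    (hasStrictFDerivAt_norm_sq y).hasFDerivAt
  have h2 : HasFDerivAt (fun y : V => 1 - ‖y‖ ^ 2 / ρ ^ 2)
      (-((ρ ^ 2)⁻¹ • (2 • (innerSL ℝ y)))) y := by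
    have h3 := (h1.const_mul ((ρ ^ 2)⁻¹)).const_sub 1
    have h4 : (fun y : V => 1 - ‖y‖ ^ 2 / ρ ^ 2) = fun y : V => 1 - (ρ ^ 2)⁻¹ * ‖y‖ ^ 2 := by
      funext z
      rw [div_eq_inv_mul]
    rw [h4]
    exact h3
  have h3 := (g_deriv hk (1 - ‖y‖ ^ 2 / ρ ^ 2)).comp_hasFDerivAt y h2
  have h4 : fderiv ℝ (fb (V := V) ρ k) y =
      (-(((k : ℝ) * (max 0 (1 - ‖y‖ ^ 2 / ρ ^ 2)) ^ (k - 1)) * (2 / ρ ^ 2))) • (innerSL ℝ y) := by
    refine h3.fderiv.trans ?_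
    ext z
    simp only [ContinuousLinearMap.smul_apply, ContinuousLinearMap.neg_apply, smul_eq_mul,
      nsmul_eq_mul, innerSL_apply_apply]
    push_cast
    ring
  have h5 : 0 ≤ ((k : ℝ) * (max 0 (1 - ‖y‖ ^ 2 / ρ ^ 2)) ^ (k - 1)) * (2 / ρ ^ 2) :=
    mul_nonneg (mul_nonneg (Nat.cast_nonneg k) (pow_nonneg (le_max_left _ _) _)) (by positivity)
  unfold gradient
  rw [LinearIsometryEquiv.norm_map, h4, norm_smul, norm_neg, Real.norm_of_nonneg h5,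
    innerSL_apply_norm]
  ring

end

end Pool.Agent.H756R3.CP
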