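import Pool.Agent.H756R3.CP.LP1

/-! Task LP of project COVPROD, part 2: integrals. -/

set_option autoImplicit false

open MeasureTheory Metric Real

namespace Pool.Agent.H756R3.CP

open Pool.Agent.H624R3.CP

section
variable {V : Type} [NormedAddCommGroup V] [InnerProductSpace ℝ V] [FiniteDimensional ℝ V]
  [MeasurableSpace V] [BorelSpace V] {i : ℕ}

theorem integral_norm (hi : Module.finrank ℝ V = i) (φ : ℝ → ℝ) :
    ∫ y : V, φ ‖y‖ = ∫ u : E i, φ ‖u‖ := by
  subst hi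
  have mp := (stdOrthonormalBasis ℝ V).repr.measurePreserving
  have h := mp.integral_comp (stdOrthonormalBasis ℝ V).repr.toHomeomorph.measurableEmbedding
    (fun u => φ ‖u‖)
  simpa using h

theorem vol_ball (hi : Module.finrank ℝ V = i) (c : V) {R : ℝ} (hR : 0 ≤ R) :
    (volume (closedBall c R)).toReal = vb i * R ^ i := by
  have h1 := Measure.addHaar_closedBall' (volume : Measure V) c hR
  have h2 : volume (closedBall (0 : V) 1) = volume (closedBall (0 : E i) 1) := by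
    subst hi
    have mp := (stdOrthonormalBasis ℝ V).repr.measurePreserving
    have h3 := mp.measure_preimage (s := closedBall 0 1) measurableSet_closedBall.nullMeasurableSet
    rw [← h3]
    congr 1
    ext y
    simp
  rw [h1, ENNReal.toReal_mul, h2, hi, ENNReal.toReal_ofReal (by positivity), mul_comm]
  rfl

theorem overlap (hi : Module.finrank ℝ V = i) (hi1 : 1 ≤ i) {ρ c : ℝ} (hρ : 0 < ρ) (hc : 0 ≤ c)
    (w : V) (h : V → ℝ) (h0 : ∀ y, 0 ≤ h y) (h1 : ∀ y, h y ≤ c)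
    (h2 : ∀ y, ρ < ‖y‖ ∨ ρ < ‖y + w‖ → h y = 0) :
    ∫ y, h y ≤ c * (vb i * (max 0 (ρ ^ 2 - ‖w‖ ^ 2 / 4)) ^ ((i : ℝ) / 2)) := by
  have hpar : ∀ y : V, ‖y‖ ^ 2 + ‖y + w‖ ^ 2 = 2 * ‖y + (1 / 2 : ℝ) • w‖ ^ 2 + ‖w‖ ^ 2 / 2 := by
    intro y
    have e1 : ‖y + w‖ ^ 2 = ‖y‖ ^ 2 + 2 * inner ℝ y w + ‖w‖ ^ 2 := norm_add_sq_real y w
    have e2 : ‖y + (1 / 2 : ℝ) • w‖ ^ 2 =
        ‖y‖ ^ 2 + 2 * inner ℝ y ((1 / 2 : ℝ) • w) + ‖(1 / 2 : ℝ) • w‖ ^ 2 := norm_add_sq_real y _
    rw [e1, e2, inner_smul_right, norm_smul]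
    norm_num
    ring
  have hin : ∀ y : V, h y ≠ 0 → ‖y + (1 / 2 : ℝ) • w‖ ^ 2 ≤ ρ ^ 2 - ‖w‖ ^ 2 / 4 := by
    intro y hy
    have h3 : ‖y‖ ≤ ρ := by
      by_contra hcon
      exact hy (h2 y (Or.inl (not_le.1 hcon)))
    have h4 : ‖y + w‖ ≤ ρ := by
      by_contra hcon
      exact hy (h2 y (Or.inr (not_le.1 hcon)))
    have h5 := hpar y
    have h6 : ‖y‖ ^ 2 ≤ ρ ^ 2 := pow_le_pow_left₀ (norm_nonneg _) h3 2
    have h7 : ‖y + w‖ ^ 2 ≤ ρ ^ 2 := pow_le_pow_left₀ (norm_nonneg _) h4 2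
    linarith
  by_cases ha : 0 ≤ ρ ^ 2 - ‖w‖ ^ 2 / 4
  · set a := ρ ^ 2 - ‖w‖ ^ 2 / 4 with hadef
    set B := closedBall (-((1 / 2 : ℝ) • w)) (√a) with hB
    have hle : ∀ y, h y ≤ B.indicator (fun _ => c) y := by
      intro y
      by_cases hy : h y = 0
      · rw [hy]
        exact Set.indicator_nonneg (fun _ _ => hc) y
      · have h8 : y ∈ B := by
          rw [hB, mem_closedBall, dist_eq_norm, sub_neg_eq_add]
          exact Real.le_sqrt_of_sq_le (hin y hy)
        rw [Set.indicator_of_mem h8]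
        exact h1 y
    have hBfin : volume B ≠ ⊤ := measure_closedBall_lt_top.ne
    have hint : Integrable (B.indicator (fun _ => c)) (volume : Measure V) := by
      rw [integrable_indicator_iff measurableSet_closedBall]
      exact integrableOn_const hBfin
    calc ∫ y, h y ≤ ∫ y, B.indicator (fun _ => c) y :=
          integral_mono_of_nonneg (Filter.Eventually.of_forall h0) hint
            (Filter.Eventually.of_forall hle)
      _ = c * (volume B).toReal := by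
          rw [integral_indicator measurableSet_closedBall, setIntegral_const, smul_eq_mul,
            Measure.real, mul_comm]
      _ = c * (vb i * (max 0 a) ^ ((i : ℝ) / 2)) := by
          rw [vol_ball hi _ (Real.sqrt_nonneg a), max_eq_right ha]
          congr 2
          rw [Real.sqrt_eq_rpow, ← Real.rpow_natCast, ← Real.rpow_mul ha]
          congr 1
          ring
  · have hz : ∀ y, h y = 0 := by
      intro y
      by_contra hy
      have := hin y hy
      exact ha ((sq_nonneg _).trans this)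
    simp only [hz, integral_zero]
    rw [max_eq_left (not_le.1 ha).le]
    rw [Real.zero_rpow (by
      have : (0 : ℝ) < i := by exact_mod_cast hi1
      positivity)]
    simp

theorem fb_sq_int (hi : Module.finrank ℝ V = i) {ρ : ℝ} (hρ : 0 < ρ) {k : ℕ} (hk : 1 ≤ k) :
    ∫ y : V, fb ρ k y ^ 2 = II i ρ (2 * k) := by
  have h1 := integral_norm (V := V) hi (fun t => ((max 0 (1 - t ^ 2 / ρ ^ 2)) ^ k) ^ 2)
  refine h1.trans ?_
  unfold II
  rw [← integral_indicator measurableSet_closedBall]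
  congr 1
  funext u
  by_cases hu : u ∈ closedBall (0 : E i) ρ
  · rw [Set.indicator_of_mem hu]
    rw [mem_closedBall_zero_iff] at hu
    have h2 : 0 ≤ 1 - ‖u‖ ^ 2 / ρ ^ 2 := by
      have : ‖u‖ ^ 2 / ρ ^ 2 ≤ 1 := by
        rw [div_le_one (by positivity)]
        exact pow_le_pow_left₀ (norm_nonneg _) hu 2
      linarith
    rw [max_eq_right h2, ← pow_mul, mul_comm]
  · rw [Set.indicator_of_notMem hu]
    rw [mem_closedBall_zero_iff, not_le] at hu
    have := fb_zero (V := E i) hρ hk hu.le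
    unfold fb at this
    rw [this]
    norm_num

theorem II_int (i : ℕ) (ρ : ℝ) (m : ℕ) :
    IntegrableOn (fun u : E i => (1 - ‖u‖ ^ 2 / ρ ^ 2) ^ m) (closedBall (0 : E i) ρ) :=
  ContinuousOn.integrableOn_compact (isCompact_closedBall 0 ρ) (by fun_prop)

theorem grad_sq_int (hI : TaskIVAL) (hi : Module.finrank ℝ V = i) (hi1 : 1 ≤ i) {ρ : ℝ}
    (hρ : 0 < ρ) {k : ℕ} (hk : 2 ≤ k) :
    ∫ y : V, ‖gradient (fb (V := V) ρ k) y‖ ^ 2 =
      (k * i * (i + 4 * k) / ((4 * k - 2) * ρ ^ 2)) * II i ρ (2 * k) := by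
  simp only [grad_norm ρ hk]
  have h1 := integral_norm (V := V) hi
    (fun t => ((k : ℝ) * (max 0 (1 - t ^ 2 / ρ ^ 2)) ^ (k - 1) * (2 * t / ρ ^ 2)) ^ 2)
  refine h1.trans ?_
  obtain ⟨j, rfl⟩ : ∃ j, k = j + 1 := ⟨k - 1, by omega⟩
  have h2 : ∫ u : E i, (((j + 1 : ℕ) : ℝ) * (max 0 (1 - ‖u‖ ^ 2 / ρ ^ 2)) ^ (j + 1 - 1) *
      (2 * ‖u‖ / ρ ^ 2)) ^ 2 =
      (4 * ((j + 1 : ℕ) : ℝ) ^ 2 / ρ ^ 2) * (II i ρ (2 * j) - II i ρ (2 * j + 1)) := by
    unfold II
    rw [← integral_sub (II_int i ρ (2 * j)) (II_int i ρ (2 * j + 1)), ← integral_const_mul,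
      ← integral_indicator measurableSet_closedBall]
    congr 1
    funext u
    by_cases hu : u ∈ closedBall (0 : E i) ρ
    · rw [Set.indicator_of_mem hu]
      rw [mem_closedBall_zero_iff] at hu
      have h2 : 0 ≤ 1 - ‖u‖ ^ 2 / ρ ^ 2 := by
        have : ‖u‖ ^ 2 / ρ ^ 2 ≤ 1 := by
          rw [div_le_one (by positivity)]
          exact pow_le_pow_left₀ (norm_nonneg _) hu 2
        linarith
      rw [max_eq_right h2, Nat.add_sub_cancel, pow_succ _ (2 * j), pow_mul']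
      have hρ0 : ρ ≠ 0 := hρ.ne'
      field_simp
      ring
    · rw [Set.indicator_of_notMem hu]
      rw [mem_closedBall_zero_iff, not_le] at hu
      have := fb_zero (V := E i) hρ (k := j + 1 - 1) (by omega) hu.le
      unfold fb at this
      rw [this]
      norm_num
  rw [h2]
  have h3 := (hI i (2 * j) ρ hi1 hρ).2
  have h4 := (hI i (2 * j + 1) ρ hi1 hρ).2
  have h5 : 2 * (j + 1) = 2 * j + 1 + 1 := by ring
  rw [h5]
  set A := II i ρ (2 * j)
  set B := II i ρ (2 * j + 1)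
  set C := II i ρ (2 * j + 1 + 1)
  push_cast at h3 h4 ⊢
  have hj : (0 : ℝ) ≤ j := Nat.cast_nonneg j
  have hρ0 : ρ ≠ 0 := hρ.ne'
  have hj1 : (4 * ((j : ℝ) + 1) - 2) ≠ 0 := by
    have : (0 : ℝ) < 4 * ((j : ℝ) + 1) - 2 := by linarith
    exact this.ne'
  field_simp
  have h6 : (4 * ((j : ℝ) + 1) - 2) * (A - B) = i * B := by linear_combination -h3
  have h7 : ((i : ℝ) + 4 * (j + 1)) * C = 4 * (j + 1) * B := by linear_combination h4
  linear_combination (4 * ((j : ℝ) + 1)) * h6 - (i : ℝ) * h7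

end

end Pool.Agent.H756R3.CP
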